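import Pool.Agent.V1282.PT6

set_option autoImplicit false

open Set Filter Topology MeasureTheory Pool.Agent.V1282.PT

namespace Pool.Agent.Results.MP_725b87_an.LebesgueNull

/-- **Q1 has a positive answer.**  Let `Ω ⊆ ℂⁿ` be open and connected (in particular, a bounded
pseudoconvex domain) and let `φ` be plurisubharmonic on `Ω` and not identically `-∞`.  Then the set
`E(φ)` of the points of `Ω` at which `φ` admits no differential test from above has Lebesgue
measure zero. -/
theorem result : ∀ (n : ℕ) (Ω : Set (Cn n)), IsOpen Ω → IsConnected Ω →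
    ∀ φ : Cn n → EReal, IsPSH Ω φ → (∃ z ∈ Ω, φ z ≠ ⊥) → volume (ExSet Ω φ) = 0 :=
  fun _ _ hΩ hconn _ hφ hne => exSet_null hΩ hconn.isPreconnected hφ hne

end Pool.Agent.Results.MP_725b87_an.LebesgueNull
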